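import Pool.Agent.K6.H47.GL.Final
import Pool.Agent.K6.H47.GL.PTB

/-!
# The Govorov-Lazard property for restricted flat dimension

Q1, positive answer: for every commutative noetherian ring `R` (local or not, of finite or infinite
Krull dimension) and every `n ≥ 0`, every module of restricted flat dimension at most `n` is a direct
limit of finitely generated modules of restricted flat dimension at most `n`.

Idea. By a criterion of Lenzing it is enough to factor each homomorphism `φ : N → M` from a finitely
generated module through a finitely generated module of restricted flat dimension at most `n`.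
The restricted flat dimension of any module `X` is at most `n` if and only if, at each prime `w`, the
local cohomology modules `H^p_w(X_w)` vanish for `p < depth R_w - n`. Let `w` be a minimal prime in
the closed set where this may fail for `N`, and `E = H^j_w(N_w)` the first bad local cohomology module.
It is killed by a power of `w`: this is seen with the module `T ^ ℕ`, a product of copies of a test
module `T` of finite flat dimension with `Tor_{t-j}(T, N) = E`. So `E` is finitely generated and
there is an extension `0 → N_w → X → Ω^{j-1} E → 0` with `H^p_w(X) = 0` for `p ≤ j`, to which `φ_w`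
extends since `H^p_w(M_w) = 0` for `p ≤ j`; it comes, after multiplication with an element outside
`w`, from an extension of finitely generated modules over `R` to which `φ` extends. Off `V(w)` nothing
is spoilt, and near the generic point of `V(w)` the depth condition is an open condition; so
noetherian induction applies.
-/

set_option autoImplicit false

open CategoryTheory CategoryTheory.Limits

universe u

namespace Pool.Agent.Results.MP_62b004_al.GovorovLazard

/-- the image of `d (p - 1)` in `F p`, which is zero for `p = 0` -/
def previousImage {R : Type u} [CommRing R] {F : ℕ → Type u} [∀ p, AddCommGroup (F p)]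
    [∀ p, Module R (F p)] (d : ∀ p, F p →ₗ[R] F (p + 1)) : ∀ p : ℕ, Submodule R (F p)
  | 0 => ⊥
  | p + 1 => LinearMap.range (d p)

/-- `T` has finite flat dimension: there is an exact sequence
`0 → F 0 → F 1 → ⋯ → F m → T → 0` with all `F p` flat -/
def FiniteFlatDimension (R : Type u) [CommRing R] (T : Type u) [AddCommGroup T] [Module R T] :
    Prop :=
  ∃ (m : ℕ) (F : ℕ → Type u) (_ : ∀ p, AddCommGroup (F p)) (_ : ∀ p, Module R (F p))
    (d : ∀ p, F p →ₗ[R] F (p + 1)) (ε : F m →ₗ[R] T), (∀ p, Module.Flat R (F p)) ∧
    (∀ p, p < m → LinearMap.ker (d p) = previousImage d p) ∧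
    LinearMap.ker ε = previousImage d m ∧ Function.Surjective ε

/-- the restricted flat dimension of `M` is at most `n`: `Tor_i(T, M) = 0` for all `i > n` and all
modules `T` of finite flat dimension -/
def RestrictedFlatDimensionLE (R : Type u) [CommRing R] (n : ℕ) (M : Type u) [AddCommGroup M]
    [Module R M] : Prop :=
  ∀ (T : Type u) [AddCommGroup T] [Module R T], FiniteFlatDimension R T → ∀ i : ℕ, n < i →
    IsZero (((Tor (ModuleCat.{u} R) i).obj (ModuleCat.of R T)).obj (ModuleCat.of R M))

theorem iff_rfdLE (hTB : Pool.Agent.K6.H47.GL.S_TB.{u}) (R : Type u) [CommRing R] (n : ℕ)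
    (M : Type u) [AddCommGroup M] [Module R M] :
    RestrictedFlatDimensionLE R n M ↔ Pool.Agent.K6.H47.GL.RfdLE R n M := by
  constructor
  · intro h C p hp
    have h1 := ((hTB R C M (C.m - p)).1 (by omega) (by omega)).1 (h C.T ?_ (C.m - p) (by omega))
    · have h2 : C.m - (C.m - p) = p := by omega
      rw [h2] at h1
      exact h1
    · have him : ∀ p, previousImage C.δ p = C.im p := by
        intro p
        cases p <;> rfl
      refine ⟨C.m, C.F, C.acg, C.mod, C.δ, (C.im C.m).mkQ, C.flat, ?_, ?_, ?_⟩
      · intro p hp
        cases p with
        | zero => exact LinearMap.ker_eq_bot.2 (C.inj hp)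
        | succ p => exact LinearMap.exact_iff.1 (C.exact p hp)
      · rw [him, Submodule.ker_mkQ]
      · exact Submodule.mkQ_surjective _
  · intro h T _ _ hT i hi
    obtain ⟨m, F, a1, a2, d, ε, hF, hd, hε, hs⟩ := hT
    let C : Pool.Agent.K6.H47.GL.FlatRes R :=
      { m := m
        F := F
        flat := hF
        δ := d
        inj := fun h0 => LinearMap.ker_eq_bot.1 (hd 0 h0)
        exact := fun p hp => LinearMap.exact_iff.2 (hd (p + 1) hp) }
    have him : previousImage d m = C.im C.m := by
      change previousImage d m = C.im m
      cases m <;> rfl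
    have e : C.T ≃ₗ[R] T :=
      (Submodule.quotEquivOfEq _ _ (by rw [hε, him])).trans (ε.quotKerEquivOfSurjective hs)
    have hz : IsZero (((Tor (ModuleCat.{u} R) i).obj (ModuleCat.of R C.T)).obj
        (ModuleCat.of R M)) := by
      by_cases him : i ≤ C.m
      · exact ((hTB R C M i).1 (by omega) him).2 (h C (C.m - i) (by omega))
      · exact (hTB R C M i).2 (by omega)
    exact hz.of_iso (((Tor (ModuleCat.{u} R) i).mapIso e.toModuleIso.symm).app _)

/-- **Q1 (Govorov-Lazard property for restricted flat dimension).** For every commutative noetherian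
ring `R` and every `n`, every `R`-module `M` of restricted flat dimension at most `n` is the direct
limit of a directed system of finitely generated modules of restricted flat dimension at most
`n`. -/
theorem result : ∀ (R : Type u) [CommRing R] [IsNoetherianRing R] (n : ℕ) (M : Type u)
    [AddCommGroup M] [Module R M], RestrictedFlatDimensionLE R n M →
    ∃ (ι : Type u) (_ : Preorder ι) (_ : IsDirectedOrder ι) (_ : Nonempty ι) (_ : DecidableEq ι)
      (G : ι → Type u) (_ : ∀ i, AddCommGroup (G i)) (_ : ∀ i, Module R (G i))
      (f : ∀ i j, i ≤ j → G i →ₗ[R] G j) (_ : DirectedSystem G fun i j h => f i j h),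
      (∀ i, Module.Finite R (G i) ∧ RestrictedFlatDimensionLE R n (G i)) ∧
      Nonempty (Module.DirectLimit G f ≃ₗ[R] M) := by
  intro R _ _ n M _ _ hM
  have hTB := Pool.Agent.K6.H47.GL.t_TB Pool.Agent.K6.H47.GL.t_CH Pool.Agent.K6.H47.GL.t_IS
  obtain ⟨ι, b1, b2, b3, b4, G, b5, b6, f, b7, h1, h2⟩ :=
    Pool.Agent.K6.H47.GL.main R n M ((iff_rfdLE hTB R n M).1 hM)
  exact ⟨ι, b1, b2, b3, b4, G, b5, b6, f, b7,
    fun i => ⟨(h1 i).1, (iff_rfdLE hTB R n (G i)).2 (h1 i).2⟩, h2⟩

end Pool.Agent.Results.MP_62b004_al.GovorovLazard
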